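import Pool.Agent.H16.GZ.Targets4
import Pool.Agent.H19.GZ.LBas

/-! # Row CLO of the board gz_modules: matrices seen at the same points have comparable rows -/

set_option autoImplicit false

open MeasureTheory Pool.Agent.H34.GM Pool.Agent.H34.GZ

namespace Pool.Agent.H19.GZ

theorem pf_CLO (hALZ : T_ALZ) : T_CLO := by
  intro m hm
  have hm1 : (1 : ℝ) ≤ m := by exact_mod_cast hm
  obtain ⟨Y, hY⟩ : ∃ Y : ℝ, Y = (m.factorial : ℝ) * (4 * m) ^ m := ⟨_, rfl⟩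
  have hY0 : 0 < Y := by rw [hY]; positivity
  refine ⟨4 * (m * (m * (m * (Y * (4 * m))))), by positivity, ?_⟩
  intro γ γ' b h y hb hh hy h1 h2 h1' h2' hA hA' i
  obtain ⟨⟨⟨-, hcR⟩, hdet⟩, -⟩ := hALZ m 2 hm le_rfl
  have hdγ : |(cR γ).det| = (γ.det.natAbs : ℝ) := (hdet γ).2
  have hdγ' : |(cR γ').det| = (γ'.det.natAbs : ℝ) := (hdet γ').2
  obtain ⟨G, hG⟩ : ∃ G, G = cR γ := ⟨_, rfl⟩
  obtain ⟨G', hG'⟩ : ∃ G', G' = cR γ' := ⟨_, rfl⟩
  rw [← hG] at hA hdγ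
  rw [← hG'] at hA' hdγ'
  have hy2 : 0 < y ^ 2 / 4 := by positivity
  have hGd : G.det ≠ 0 := by
    intro h0
    rw [h0, abs_zero] at hdγ
    linarith
  have hGd' : G'.det ≠ 0 := by
    intro h0
    rw [h0, abs_zero] at hdγ'
    linarith
  have haG := aN_pos G hGd
  have haG' := aN_pos G' hGd'
  have hah := aN_pos h hh
  have hab := aN_pos b hb
  obtain ⟨t, ht⟩ : ∃ t, t = (aN G)⁻¹ * aN h / aN b := ⟨_, rfl⟩
  obtain ⟨t', ht'⟩ : ∃ t', t' = (aN G')⁻¹ * aN h / aN b := ⟨_, rfl⟩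
  have ht0 : 0 < t := by rw [ht]; positivity
  have ht0' : 0 < t' := by rw [ht']; positivity
  obtain ⟨A, hAd⟩ : ∃ A, A = kk (aN G) h G b := ⟨_, rfl⟩
  obtain ⟨A', hAd'⟩ : ∃ A', A' = kk (aN G') h G' b := ⟨_, rfl⟩
  rw [← hAd] at hA
  rw [← hAd'] at hA'
  have hAe : A = t • (h⁻¹ * G * b) := by rw [hAd, kk_apply, ht]
  have hAe' : A' = t' • (h⁻¹ * G' * b) := by rw [hAd', kk_apply, ht']
  -- determinant of A
  have hdA : |A.det| = 1 := by
    rw [hAe, Matrix.det_smul, Fintype.card_fin, Matrix.det_mul, Matrix.det_mul,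
      Matrix.det_nonsing_inv, Ring.inverse_eq_inv', abs_mul, abs_mul, abs_mul, abs_inv, abs_pow,
      abs_of_pos ht0, ← aN_pow hm h, ← aN_pow hm G, ← aN_pow hm b, ht]
    rw [div_pow, mul_pow, inv_pow]
    field_simp
  have hdA0 : A.det ≠ 0 := by
    intro h0
    rw [h0, abs_zero] at hdA
    exact zero_ne_one hdA
  have hAu : IsUnit A.det := isUnit_iff_ne_zero.mpr hdA0
  have hAi : A * A⁻¹ = 1 := Matrix.mul_nonsing_inv A hAu
  have hhi : h * h⁻¹ = 1 := Matrix.mul_nonsing_inv h (isUnit_iff_ne_zero.mpr hh)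
  -- bounds of the entries
  have h4m : (1 : ℝ) ≤ 4 * m := by linarith
  have hA4 : ∀ i j, |A i j| ≤ 4 * m := fun i j => (abs_le_sz A i j).trans hA
  have hA4' : ∀ i j, |A' i j| ≤ 4 * m := fun i j => (abs_le_sz A' i j).trans hA'
  have hAinv : ∀ i j, |A⁻¹ i j| ≤ Y := by
    intro i j
    rw [Matrix.inv_def, Ring.inverse_eq_inv', Matrix.smul_apply, smul_eq_mul, abs_mul, abs_inv,
      hdA, inv_one, one_mul, hY]
    exact adj_bd A h4m hA4 i j
  have hW : ∀ i j, |(A⁻¹ * A') i j| ≤ m * (Y * (4 * m)) :=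
    fun i j => mul_bd A⁻¹ A' hY0.le hAinv hA4' i j
  -- the identity
  have hid : G' * b = (t / t') • (G * b * (A⁻¹ * A')) := by
    have e1 : h * A = t • (G * b) := by
      rw [hAe, Matrix.mul_smul, ← Matrix.mul_assoc, ← Matrix.mul_assoc, hhi, Matrix.one_mul]
    have e2 : h * A' = t' • (G' * b) := by
      rw [hAe', Matrix.mul_smul, ← Matrix.mul_assoc, ← Matrix.mul_assoc, hhi, Matrix.one_mul]
    have e3 : G * b = t⁻¹ • (h * A) := by
      rw [e1, smul_smul, inv_mul_cancel₀ ht0.ne', one_smul]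
    rw [e3, Matrix.smul_mul, smul_smul, ← Matrix.mul_assoc, Matrix.mul_assoc h A A⁻¹, hAi,
      Matrix.mul_one, e2, smul_smul]
    have e4 : t / t' * t⁻¹ * t' = 1 := by field_simp
    rw [e4, one_smul]
  -- the ratio
  have hrat : t / t' = aN G' / aN G := by
    rw [ht, ht']
    field_simp
  have hrat4 : |t / t'| ≤ 4 := by
    rw [abs_of_pos (div_pos ht0 ht0'), hrat, div_le_iff₀ haG]
    apply le_of_pow_le_pow_left₀ (n := m) (by omega) (by positivity)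
    rw [mul_pow, aN_pow hm, aN_pow hm, hdγ, hdγ']
    have h5 : (4 : ℝ) ≤ 4 ^ m := by
      calc (4 : ℝ) = 4 ^ 1 := (pow_one 4).symm
        _ ≤ 4 ^ m := pow_le_pow_right₀ (by norm_num) hm
    nlinarith
  -- rows
  have hrow : ∀ (δ : ZM m), vb (δ i) b = (cR δ * b) i := by
    intro δ
    unfold vb
    funext j
    rw [Matrix.mul_apply]
    rfl
  rw [hrow γ', hrow γ, ← hG, ← hG', hid]
  have e5 : ((t / t') • (G * b * (A⁻¹ * A'))) i =
      (t / t') • Matrix.vecMul ((G * b) i) (A⁻¹ * A') := by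
    funext j
    rw [Matrix.smul_apply, Matrix.mul_apply]
    rfl
  rw [e5, rowN_smul]
  have h6 := rowN_vecMul ((G * b) i) (A⁻¹ * A') (by positivity) hW
  have h7 := rowN_nonneg ((G * b) i)
  calc |t / t'| * rowN (Matrix.vecMul ((G * b) i) (A⁻¹ * A'))
      ≤ 4 * (m * (m * (m * (Y * (4 * m)))) * rowN ((G * b) i)) :=
        mul_le_mul hrat4 h6 (rowN_nonneg _) (by norm_num)
    _ = _ := by ring

end Pool.Agent.H19.GZ
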